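import Pool.Agent.helper1.FI4.SpecHT
import Pool.Agent.helper59.FI.Base

/-!
# Row HTD: `|D| * ψ 1` divides `|K|` in a good block
-/

set_option autoImplicit false

namespace Pool.Agent.FI4

open Pool.Agent.helper58.DC Pool.Agent.DI Pool.Agent.GR Pool.Agent.OB Pool.Agent.DR Pool.Agent.FI Pool.Agent.FI3

theorem HTD_preg {G : Type} [Group G] (p : ℕ) (l x : G) : PReg p (l * x * l⁻¹) ↔ PReg p x := by
  unfold PReg
  have h : orderOf (l * x * l⁻¹) = orderOf x := by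
    have h1 := MulEquiv.orderOf_eq (MulAut.conj l) x
    rwa [MulAut.conj_apply] at h1
  rw [h]

theorem HTD_memL {G : Type} [Group G] {L : Subgroup G} {l : G} (hl : l ∈ L) (x : G) : l * x * l⁻¹ ∈ L ↔ x ∈ L := by
  constructor
  · intro h
    have h1 : l⁻¹ * (l * x * l⁻¹) * l ∈ L := L.mul_mem (L.mul_mem (L.inv_mem hl) h) hl
    have h2 : l⁻¹ * (l * x * l⁻¹) * l = x := by group
    rwa [h2] at h1
  · intro h
    exact L.mul_mem (L.mul_mem hl h) (L.inv_mem hl)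

theorem HTD_rat {q : ℚ} (h : IsIntegral ℤ ((q : ℚ) : ℂ)) : ∃ k : ℤ, (k : ℚ) = q := by
  have h1 : IsIntegral ℤ q := by
    have h2 : IsIntegral ℤ (algebraMap ℚ ℂ q) := h
    exact (isIntegral_algebraMap_iff (algebraMap ℚ ℂ).injective).1 h2
  obtain ⟨k, hk⟩ := IsIntegrallyClosed.isIntegral_iff.1 h1
  exact ⟨k, hk⟩

theorem HTD (hHTN : HTN_stmt) (hC3 : C3_stmt) : HTD_stmt := by
  classical
  intro p M hS G _ _ D L θ hg ψ hψ
  obtain ⟨hψI, hψS⟩ := hψ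
  obtain ⟨n, hn0, hn1, hn2⟩ := IrrOn_pos hψI
  have hN := hHTN p M hS G D L θ hg ψ ⟨hψI, hψS⟩ ψ ⟨hψI, hψS⟩
  have hnC : (n : ℂ) ≠ 0 := by exact_mod_cast hn0.ne'
  have hDC : (Nat.card D : ℂ) ≠ 0 := by
    have : 0 < Nat.card D := Nat.card_pos
    exact_mod_cast this.ne'
  set z : G → ℂ := fun v => if v ∈ L ∧ PReg p v then ψ v⁻¹ else 0 with hz
  have hzi : ∀ l ∈ L, ∀ y, z (l * y * l⁻¹) = z y := by
    intro l hl y
    have h1 : (l * y * l⁻¹)⁻¹ = l * y⁻¹ * l⁻¹ := by group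
    simp only [hz]
    rw [HTD_preg, HTD_memL hl, h1, IrrOn_conj hψI hl]
  have hzI : ∀ y, IsIntegral ℤ (z y) := by
    intro y
    simp only [hz]
    split_ifs
    · exact IrrOn_int hψI _
    · exact isIntegral_zero
  have hcI : IsIntegral ℤ (cc ψ z) := (hC3 G).1 L ψ hψI z hzi hzI
  have hcc : cc ψ z * n = ∑ᶠ v ∈ {v : G | v ∈ L ∧ PReg p v}, ψ v * ψ v⁻¹ := by
    unfold cc
    rw [hn1, div_mul_cancel₀ _ hnC]
    refine finsum_congr fun v => ?_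
    rw [finsum_eq_if]
    simp only [hz, Set.mem_ofPred_eq]
    split_ifs
    · ring
    · ring
  have hmain : (Nat.card D : ℂ) * (cc ψ z * n) = Nat.card L := by
    rw [hcc]
    exact hN
  obtain ⟨k, hk⟩ : ∃ k : ℤ, (k : ℚ) = (Nat.card L : ℚ) / ((Nat.card D : ℚ) * n) := by
    apply HTD_rat
    have h1 : (((Nat.card L : ℚ) / ((Nat.card D : ℚ) * n) : ℚ) : ℂ) = cc ψ z := by
      push_cast
      rw [div_eq_iff (mul_ne_zero hDC hnC), ← hmain]
      ring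
    rw [h1]
    exact hcI
  have hdvd : Nat.card D * n ∣ Nat.card L := by
    have hDQ : (Nat.card D : ℚ) ≠ 0 := by exact_mod_cast hDC
    have hnQ : (n : ℚ) ≠ 0 := by exact_mod_cast hnC
    rw [eq_div_iff (mul_ne_zero hDQ hnQ)] at hk
    have h1 : (k : ℤ) * ((Nat.card D : ℤ) * n) = (Nat.card L : ℤ) := by exact_mod_cast hk
    have h2 : ((Nat.card D * n : ℕ) : ℤ) ∣ (Nat.card L : ℤ) := ⟨k, by push_cast; rw [← h1]; ring⟩
    exact_mod_cast h2
  obtain ⟨m0, hm0⟩ := hdvd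
  exact ⟨n, m0, hn1, hm0.symm⟩

end Pool.Agent.FI4
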